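import Pool.Agent.Helper44.GJ.Stmts

/-! Module HVR: the variance of `hz`. -/

open Finset MeasureTheory Filter Topology Matrix
open scoped ENNReal ContDiff

namespace Pool.Agent.Helper44.GJ

open Pool.Agent.Helper44.GF Pool.Agent.Helper44.GN Pool.Agent.Helper44.GH

namespace HVR

variable {n m : ℕ}

theorem null_hyper (V : Matrix (Fin n) (Fin m) ℝ) (j : Fin n) (hj : V j ≠ 0) :
    ∀ᵐ x : Fin m → ℝ, V.mulVec x j ≠ 0 := by
  set L : (Fin m → ℝ) →ₗ[ℝ] ℝ := (LinearMap.proj j).comp V.mulVecLin with hL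
  have h1 : LinearMap.ker L ≠ ⊤ := by
    intro h
    apply hj
    funext b
    have h2 : (Pi.single b 1 : Fin m → ℝ) ∈ LinearMap.ker L := by
      rw [h]
      trivial
    rw [LinearMap.mem_ker] at h2
    have h3 : L (Pi.single b 1) = V j b := by
      rw [hL]
      simp
    rw [h3] at h2
    exact h2
  have h2 := Measure.addHaar_submodule (volume : Measure (Fin m → ℝ)) (LinearMap.ker L) h1
  have h3 : {x : Fin m → ℝ | ¬ V.mulVec x j ≠ 0} = (LinearMap.ker L : Set (Fin m → ℝ)) := by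
    ext x
    simp [hL]
  rw [ae_iff, h3]
  exact h2

theorem tt_dot (V W : Matrix (Fin n) (Fin m) ℝ) (c : Fin n → ℝ) (h x : Fin m → ℝ) :
    ∑ j, c j * (V.mulVec h j * W.mulVec x j) = h ⬝ᵥ (TT V W c).mulVec x := by
  unfold TT
  rw [← Matrix.mulVec_mulVec, ← Matrix.mulVec_mulVec, Matrix.dotProduct_mulVec,
    Matrix.vecMul_transpose]
  simp only [dotProduct, Matrix.mulVec_diagonal]
  refine sum_congr rfl fun j _ => ?_
  ring

/-- Continuous functions of polynomial growth. -/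
def PG (f : (Fin m → ℝ) → ℝ) : Prop :=
  Continuous f ∧ ∃ (C : ℝ) (k : ℕ), 0 ≤ C ∧ ∀ x, |f x| ≤ C * (1 + ‖x‖) ^ k

theorem PG.of_le {f g : (Fin m → ℝ) → ℝ} (hf : Continuous f) (hg : PG g)
    (h : ∀ x, |f x| ≤ |g x|) : PG f := by
  obtain ⟨-, C, k, hC, hb⟩ := hg
  exact ⟨hf, C, k, hC, fun x => (h x).trans (hb x)⟩

theorem PG.const (a : ℝ) : PG (fun _ : Fin m → ℝ => a) :=
  ⟨continuous_const, |a|, 0, abs_nonneg _, fun x => by simp⟩

theorem PG.add {f g : (Fin m → ℝ) → ℝ} (hf : PG f) (hg : PG g) : PG (fun x => f x + g x) := by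
  obtain ⟨hfc, C, k, hC, hb⟩ := hf
  obtain ⟨hgc, D, l, hD, hd⟩ := hg
  refine ⟨hfc.add hgc, C + D, k + l, add_nonneg hC hD, fun x => ?_⟩
  have h1 : (1 : ℝ) ≤ 1 + ‖x‖ := by linarith [norm_nonneg x]
  have h2 : (1 + ‖x‖) ^ k ≤ (1 + ‖x‖) ^ (k + l) := pow_le_pow_right₀ h1 (Nat.le_add_right _ _)
  have h3 : (1 + ‖x‖) ^ l ≤ (1 + ‖x‖) ^ (k + l) := pow_le_pow_right₀ h1 (Nat.le_add_left _ _)
  have h4 := mul_le_mul_of_nonneg_left h2 hC
  have h5 := mul_le_mul_of_nonneg_left h3 hD
  have h6 := abs_add_le (f x) (g x)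
  have h7 := hb x
  have h8 := hd x
  rw [add_mul]
  linarith

theorem PG.mul {f g : (Fin m → ℝ) → ℝ} (hf : PG f) (hg : PG g) : PG (fun x => f x * g x) := by
  obtain ⟨hfc, C, k, hC, hb⟩ := hf
  obtain ⟨hgc, D, l, hD, hd⟩ := hg
  refine ⟨hfc.mul hgc, C * D, k + l, mul_nonneg hC hD, fun x => ?_⟩
  rw [abs_mul, pow_add]
  have h0 : 0 ≤ C * (1 + ‖x‖) ^ k := (abs_nonneg _).trans (hb x)
  refine (mul_le_mul (hb x) (hd x) (abs_nonneg _) h0).trans (le_of_eq ?_)
  ring

theorem PG.sum {ι : Type} (s : Finset ι) {f : ι → (Fin m → ℝ) → ℝ} (h : ∀ i, PG (f i)) :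
    PG (fun x => ∑ i ∈ s, f i x) := by
  classical
  induction s using Finset.induction_on with
  | empty =>
    simp only [Finset.sum_empty]
    exact PG.const 0
  | insert a s ha ih =>
    simp only [Finset.sum_insert ha]
    exact (h a).add ih

theorem PG.abs {f : (Fin m → ℝ) → ℝ} (hf : PG f) : PG (fun x => |f x|) :=
  PG.of_le hf.1.abs hf fun x => by rw [abs_abs]

theorem PG.sq {f : (Fin m → ℝ) → ℝ} (hf : PG f) : PG (fun x => f x ^ 2) := by
  simp only [pow_two]
  exact hf.mul hf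

theorem PG.coord (a : Fin m) : PG (fun x : Fin m → ℝ => x a) := by
  refine ⟨continuous_apply a, 1, 1, zero_le_one, fun x => ?_⟩
  have h1 : ‖x a‖ ≤ ‖x‖ := norm_le_pi_norm x a
  rw [Real.norm_eq_abs] at h1
  rw [pow_one]
  linarith

theorem PG.mv (V : Matrix (Fin n) (Fin m) ℝ) (i : Fin n) :
    PG (fun x : Fin m → ℝ => V.mulVec x i) := by
  unfold Matrix.mulVec dotProduct
  exact PG.sum _ fun a => (PG.const _).mul (PG.coord a)

theorem PG.g1 (hG : ST_GD) {p : ℝ} (hp1 : 2 < p) (hp2 : p ≤ 3) {t : (Fin m → ℝ) → ℝ}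
    (ht : PG t) : PG (fun x => g1 p (t x)) := by
  obtain ⟨-, -, hc, -, -, -, hb, -, -, -⟩ := hG p hp1 hp2
  refine PG.of_le (hc.comp ht.1) ((PG.const 3).mul (((PG.const 1).add ht.abs).sq)) fun x => ?_
  refine (hb (t x)).trans ?_
  exact le_abs_self _

theorem PG.g2 (hG : ST_GD) {p : ℝ} (hp1 : 2 < p) (hp2 : p ≤ 3) {t : (Fin m → ℝ) → ℝ}
    (ht : PG t) : PG (fun x => g2 p (t x)) := by
  obtain ⟨-, -, -, hc, hn, -, -, hb, -, -⟩ := hG p hp1 hp2
  refine PG.of_le (hc.comp ht.1) ((PG.const 6).mul ((PG.const 1).add ht.abs)) fun x => ?_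
  rw [abs_of_nonneg (hn _)]
  exact (hb (t x)).trans (le_abs_self _)

theorem PG.int (h0 : ST_IN0) {p : ℝ} {V : Matrix (Fin n) (Fin m) ℝ} (hp : 1 ≤ p)
    (hV : Function.Injective V.mulVec) {f : (Fin m → ℝ) → ℝ} (hf : PG f) :
    Integrable (fun x => f x * ee p V x) := by
  obtain ⟨-, -, hint⟩ := h0 n m p V hp hV
  obtain ⟨hc, C, k, -, hb⟩ := hf
  exact hint f C k hc.aestronglyMeasurable hb

theorem PG.int_inv (h1 : ST_IN1) {p : ℝ} {V : Matrix (Fin n) (Fin m) ℝ} (hp1 : 2 < p)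
    (hp2 : p < 3) (hV : Function.Injective V.mulVec) (c : Fin n → ℝ) {j : Fin n} (hj : V j ≠ 0)
    {f : (Fin m → ℝ) → ℝ} (hf : PG f) :
    Integrable (fun x => (Yj p V c j x)⁻¹ * f x * ee p V x) := by
  obtain ⟨hc, C, k, -, hb⟩ := hf
  have h := (h1 n m p V hp1 hp2.le hV j j hj hj (p - 2) 0 (by linarith) le_rfl (by linarith)
    f C k hc.aestronglyMeasurable hb).const_mul (c j / (p * (p - 1)))
  refine h.congr (Filter.Eventually.of_forall fun x => ?_)
  show c j / (p * (p - 1)) * (|V.mulVec x j| ^ (-(p - 2)) * |V.mulVec x j| ^ (-(0 : ℝ)) * f x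
    * ee p V x) = (Yj p V c j x)⁻¹ * f x * ee p V x
  have h2 : (Yj p V c j x)⁻¹ = c j / (p * (p - 1)) * |V.mulVec x j| ^ (-(p - 2)) := by
    unfold Yj GJ.g2
    rw [Real.rpow_neg (abs_nonneg _)]
    rw [inv_div, div_mul_eq_div_div, div_eq_mul_inv (c j / (p * (p - 1)))]
  rw [h2, neg_zero, Real.rpow_zero]
  ring

/-- The pointwise inequality. -/
theorem pt (c y s v : ℝ) (hc : 0 < c) (hy : 0 < y) :
    ((c * y - 3 / 5 * c) * s + c * v) ^ 2 / (c * y)
      ≤ c * y * s ^ 2 - 6 / 5 * c * s ^ 2 + 9 / 25 * c * (y⁻¹ * s ^ 2) + 4 / 5 * c * (s * v)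
        + 3 / 10 * c * ((y + y⁻¹ - 2) * s ^ 2) + 11 / 5 * c * (y⁻¹ * v ^ 2) := by
  have hcy : 0 < c * y := mul_pos hc hy
  rw [div_le_iff₀ hcy]
  have h1 : (c * y * s ^ 2 - 6 / 5 * c * s ^ 2 + 9 / 25 * c * (y⁻¹ * s ^ 2)
      + 4 / 5 * c * (s * v) + 3 / 10 * c * ((y + y⁻¹ - 2) * s ^ 2)
      + 11 / 5 * c * (y⁻¹ * v ^ 2)) * (c * y)
      = c ^ 2 * (y ^ 2 * s ^ 2 - 6 / 5 * y * s ^ 2 + 9 / 25 * s ^ 2 + 4 / 5 * y * (s * v)
        + 3 / 10 * (y - 1) ^ 2 * s ^ 2 + 11 / 5 * v ^ 2) := by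
    field_simp
    ring
  rw [h1]
  have h2 : 0 ≤ c ^ 2 * (3 / 10 * ((y - 1) * s - 2 * v) ^ 2) := by positivity
  nlinarith [h2]

end HVR

open HVR in
theorem st_HVR (hB : ST_BLU) (hS1 : ST_SE1) (hS2 : ST_SE2) (hS4 : ST_SE4) (hG2 : ST_GB2)
    (hG : ST_GD) (h0 : ST_IN0) (h1 : ST_IN1) : ST_HVR := by
  intro n m p V Z c hp1 hp2 hV hR hT hTZ hVZ
  have hp3 : p ≤ 3 := by linarith
  have hp3' : p < 3 := by linarith
  obtain ⟨-, hdg1, -, -, hg2n, -, -, -, hg10, hg20⟩ := hG p hp1 hp3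
  obtain ⟨hM, -, -⟩ := h0 n m p V (by linarith) hV
  have hee : ∀ x, 0 ≤ ee p V x := fun x => (Real.exp_pos _).le
  set t : Fin n → (Fin m → ℝ) → ℝ := fun i x => V.mulVec x i with ht
  set s : Fin n → (Fin m → ℝ) → ℝ := fun i x => Z.mulVec x i with hs
  set v : Fin n → (Fin m → ℝ) → ℝ := fun i x => V.mulVec (gz p V Z x) i with hv
  set w : Fin n → (Fin m → ℝ) → ℝ := fun i x => (g2 p (t i x) - 3 / 5 * c i) * s i x
    + c i * v i x with hw
  have pt' : ∀ i, PG (t i) := fun i => PG.mv V i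
  have ps : ∀ i, PG (s i) := fun i => PG.mv Z i
  have pg1 : ∀ i, PG (fun x => g1 p (t i x)) := fun i => (pt' i).g1 hG hp1 hp3
  have pg2 : ∀ i, PG (fun x => g2 p (t i x)) := fun i => (pt' i).g2 hG hp1 hp3
  have pgz : ∀ b, PG (fun x => gz p V Z x b) := fun b =>
    PG.sum _ fun i => (pg1 i).mul (PG.const _)
  have pv : ∀ i, PG (v i) := by
    intro i
    have a1 : PG (fun x => ∑ b, V i b * gz p V Z x b) :=
      PG.sum Finset.univ fun b => (PG.const (V i b)).mul (pgz b)
    exact a1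
  have pw : ∀ i, PG (w i) := fun i =>
    (((pg2 i).add (PG.const (-(3 / 5 * c i)))).mul (ps i)).add ((PG.const (c i)).mul (pv i))
  have pF : PG (hz p V Z) := PG.sum _ fun i => (pg1 i).mul (ps i)
  have hRg : Rg V (hz p V Z) w := by
    refine ⟨pF.1, fun i => (pw i).1, ?_, ?_⟩
    · have hH : PG (fun x => |hz p V Z x| + ∑ i, |w i x|) := pF.abs.add (PG.sum _ fun i => (pw i).abs)
      obtain ⟨-, C, k, -, hb⟩ := hH
      have hs0 : ∀ x, 0 ≤ ∑ i, |w i x| := fun x => sum_nonneg fun i _ => abs_nonneg _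
      have hH0 : ∀ x, 0 ≤ |hz p V Z x| + ∑ i, |w i x| := fun x =>
        add_nonneg (abs_nonneg _) (hs0 x)
      refine ⟨C, k, fun x => ⟨?_, fun i => ?_⟩⟩
      · refine le_trans ?_ (hb x)
        rw [abs_of_nonneg (hH0 x)]
        have := hs0 x
        linarith
      · refine le_trans ?_ (hb x)
        rw [abs_of_nonneg (hH0 x)]
        have h2 := single_le_sum (f := fun i => |w i x|) (fun i _ => abs_nonneg _) (mem_univ i)
        have h3 := abs_nonneg (hz p V Z x)
        have h4 : |w i x| ≤ ∑ i, |w i x| := h2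
        linarith
    · intro x h
      have e1 : ∀ i, HasDerivAt (fun r : ℝ => g1 p (V.mulVec (x + r • h) i)
          * Z.mulVec (x + r • h) i)
          (g2 p (V.mulVec x i) * V.mulVec h i * Z.mulVec x i
            + g1 p (V.mulVec x i) * Z.mulVec h i) 0 := by
        intro i
        have e2 : ∀ (W : Matrix (Fin n) (Fin m) ℝ), HasDerivAt (fun r : ℝ =>
            W.mulVec (x + r • h) i) (W.mulVec h i) 0 := by
          intro W
          have e3 : (fun r : ℝ => W.mulVec (x + r • h) i)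
              = fun r : ℝ => W.mulVec x i + r * W.mulVec h i := by
            funext r
            rw [Matrix.mulVec_add, Matrix.mulVec_smul, Pi.add_apply, Pi.smul_apply, smul_eq_mul]
          rw [e3]
          have e4 := ((hasDerivAt_id (0 : ℝ)).mul_const (W.mulVec h i)).const_add (W.mulVec x i)
          rw [one_mul] at e4
          exact e4
        have e5 : HasDerivAt (fun r : ℝ => g1 p (V.mulVec (x + r • h) i))
            (g2 p (V.mulVec x i) * V.mulVec h i) 0 := by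
          have e6 := hdg1 (V.mulVec (x + (0 : ℝ) • h) i)
          have e7 := e6.comp (0 : ℝ) (e2 V)
          rw [zero_smul, add_zero] at e7
          exact e7
        have e8 := e5.mul (e2 Z)
        rw [zero_smul, add_zero] at e8
        exact e8
      have e9 : HasDerivAt (fun r : ℝ => hz p V Z (x + r • h))
          (∑ i, (g2 p (V.mulVec x i) * V.mulVec h i * Z.mulVec x i
            + g1 p (V.mulVec x i) * Z.mulVec h i)) 0 := by
        unfold hz
        exact HasDerivAt.fun_sum fun i _ => e1 i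
      have e10 : ∑ i, w i x * V.mulVec h i
          = ∑ i, (g2 p (V.mulVec x i) * V.mulVec h i * Z.mulVec x i
            + g1 p (V.mulVec x i) * Z.mulVec h i) := by
        have a1 := tt_dot V Z c h x
        rw [hTZ, Matrix.zero_mulVec, dotProduct_zero] at a1
        have a2 := tt_dot V V c h (gz p V Z x)
        rw [hT, Matrix.one_mulVec] at a2
        have a3 : h ⬝ᵥ gz p V Z x = ∑ i, g1 p (V.mulVec x i) * Z.mulVec h i := by
          unfold gz Matrix.mulVec dotProduct
          simp only [mul_sum]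
          rw [sum_comm]
          refine sum_congr rfl fun i _ => sum_congr rfl fun b _ => ?_
          ring
        rw [a3] at a2
        have a4 : ∑ i, w i x * V.mulVec h i
            = ∑ i, g2 p (V.mulVec x i) * V.mulVec h i * Z.mulVec x i
              - 3 / 5 * ∑ j, c j * (V.mulVec h j * Z.mulVec x j)
              + ∑ j, c j * (V.mulVec h j * V.mulVec (gz p V Z x) j) := by
          rw [mul_sum, ← sum_sub_distrib, ← sum_add_distrib]
          refine sum_congr rfl fun i _ => ?_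
          simp only [hw, hs, hv, ht]
          ring
        rw [a4, a1, a2, sum_add_distrib]
        ring
      rw [e10]
      exact e9
  obtain ⟨hI, hV2, -⟩ := hB n m p V hp1 hp3' hV (hz p V Z) w hRg
  -- the terms on the right-hand side
  have i1 : ∀ j, Integrable (fun x => g2 p (t j x) * s j x ^ 2 * ee p V x) := fun j =>
    ((pg2 j).mul (ps j).sq).int h0 (by linarith) hV
  have i2 : ∀ j, Integrable (fun x => s j x ^ 2 * ee p V x) := fun j =>
    (ps j).sq.int h0 (by linarith) hV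
  have i4 : ∀ j, Integrable (fun x => s j x * v j x * ee p V x) := fun j =>
    ((ps j).mul (pv j)).int h0 (by linarith) hV
  have i3 : ∀ j, V j ≠ 0 → Integrable (fun x => (Yj p V c j x)⁻¹ * s j x ^ 2 * ee p V x) :=
    fun j hj => (ps j).sq.int_inv h1 hp1 hp3' hV c hj
  have i6 : ∀ j, V j ≠ 0 → Integrable (fun x => (Yj p V c j x)⁻¹ * v j x ^ 2 * ee p V x) :=
    fun j hj => (pv j).sq.int_inv h1 hp1 hp3' hV c hj
  have i5 : ∀ j, V j ≠ 0 → Integrable (fun x => (Yj p V c j x + (Yj p V c j x)⁻¹ - 2)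
      * s j x ^ 2 * ee p V x) := by
    intro j hj
    have a1 := (((i1 j).const_mul (1 / c j)).add (i3 j hj)).sub ((i2 j).const_mul 2)
    refine a1.congr (Filter.Eventually.of_forall fun x => ?_)
    show 1 / c j * (g2 p (t j x) * s j x ^ 2 * ee p V x)
      + (Yj p V c j x)⁻¹ * s j x ^ 2 * ee p V x - 2 * (s j x ^ 2 * ee p V x)
      = (Yj p V c j x + (Yj p V c j x)⁻¹ - 2) * s j x ^ 2 * ee p V x
    have a2 : Yj p V c j x = 1 / c j * g2 p (t j x) := by
      unfold Yj
      rw [one_div, div_eq_inv_mul]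
    have a3 : (Yj p V c j x + (Yj p V c j x)⁻¹ - 2) * s j x ^ 2 * ee p V x
        = Yj p V c j x * s j x ^ 2 * ee p V x + (Yj p V c j x)⁻¹ * s j x ^ 2 * ee p V x
          - 2 * (s j x ^ 2 * ee p V x) := by ring
    rw [a3]
    have a4 : Yj p V c j x * s j x ^ 2 * ee p V x
        = 1 / c j * (g2 p (t j x) * s j x ^ 2 * ee p V x) := by
      rw [a2]
      ring
    rw [a4]
  set K1 : ℝ := -(6 / 5) * (25 / 26) + 9 / 25 * (6 / 5) + 3 / 10 * (543 / 1000) with hK1
  -- one term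
  have hone : ∀ j, Integrable (fun x => w j x ^ 2 / g2 p (t j x) * ee p V x) ∧
      ∫ x, w j x ^ 2 / g2 p (t j x) * ee p V x
        ≤ IE p V (fun x => g2 p (t j x) * s j x ^ 2) + 4 / 5 * (c j * IE p V (fun x => s j x * v j x))
          + c j * (Z j ⬝ᵥ Z j) * Mp p V * K1
          + 11 / 5 * (161 / 1000) * Mp p V * (c j * ∑ i, c i * (Z i ⬝ᵥ V j) ^ 2) := by
    intro j
    by_cases hj : V j = 0
    · have b1 : ∀ x, t j x = 0 := by
        intro x
        show V j ⬝ᵥ x = 0
        rw [hj, zero_dotProduct]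
      have b2 : ∀ x, s j x = 0 := by
        intro x
        show Z j ⬝ᵥ x = 0
        rw [hVZ j hj, zero_dotProduct]
      have b3 : ∀ x, w j x ^ 2 / g2 p (t j x) * ee p V x = 0 := by
        intro x
        rw [b1, hg20, div_zero, zero_mul]
      refine ⟨?_, ?_⟩
      · simp only [b3]
        exact integrable_zero _ _ _
      · simp only [b3, b2, hj, hVZ j hj]
        unfold IE
        simp
    · have hcj := hR.c0 j
      have b1 : ∀ᵐ x : Fin m → ℝ, w j x ^ 2 / g2 p (t j x) * ee p V x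
          ≤ g2 p (t j x) * s j x ^ 2 * ee p V x - 6 / 5 * c j * (s j x ^ 2 * ee p V x)
            + 9 / 25 * c j * ((Yj p V c j x)⁻¹ * s j x ^ 2 * ee p V x)
            + 4 / 5 * c j * (s j x * v j x * ee p V x)
            + 3 / 10 * c j * ((Yj p V c j x + (Yj p V c j x)⁻¹ - 2) * s j x ^ 2 * ee p V x)
            + 11 / 5 * c j * ((Yj p V c j x)⁻¹ * v j x ^ 2 * ee p V x) := by
        filter_upwards [null_hyper V j hj] with x hx
        have b2 : 0 < g2 p (t j x) := by
          show 0 < p * (p - 1) * |V.mulVec x j| ^ (p - 2)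
          have b3 : 0 < |V.mulVec x j| := abs_pos.2 hx
          have b4 := Real.rpow_pos_of_pos b3 (p - 2)
          have b5 : 0 < p * (p - 1) := mul_pos (by linarith) (by linarith)
          exact mul_pos b5 b4
        have b3 : 0 < Yj p V c j x := div_pos b2 hcj
        have b4 : c j * Yj p V c j x = g2 p (t j x) := by
          show c j * (g2 p (V.mulVec x j) / c j) = _
          rw [mul_div_cancel₀ _ hcj.ne']
        have b5 := pt (c j) (Yj p V c j x) (s j x) (v j x) hcj b3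
        rw [b4] at b5
        have b6 := mul_le_mul_of_nonneg_right b5 (hee x)
        refine b6.trans (le_of_eq ?_)
        ring
      have i3j := i3 j hj
      have i5j := i5 j hj
      have i6j := i6 j hj
      have q2 := (i2 j).const_mul (6 / 5 * c j)
      have q3 := i3j.const_mul (9 / 25 * c j)
      have q4 := (i4 j).const_mul (4 / 5 * c j)
      have q5 := i5j.const_mul (3 / 10 * c j)
      have q6 := i6j.const_mul (11 / 5 * c j)
      have j1 : Integrable (fun x => g2 p (t j x) * s j x ^ 2 * ee p V x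
        - 6 / 5 * c j * (s j x ^ 2 * ee p V x)) := (i1 j).sub q2
      have j2 : Integrable (fun x => g2 p (t j x) * s j x ^ 2 * ee p V x
        - 6 / 5 * c j * (s j x ^ 2 * ee p V x)
        + 9 / 25 * c j * ((Yj p V c j x)⁻¹ * s j x ^ 2 * ee p V x)) := j1.add q3
      have j3 : Integrable (fun x => g2 p (t j x) * s j x ^ 2 * ee p V x
        - 6 / 5 * c j * (s j x ^ 2 * ee p V x)
        + 9 / 25 * c j * ((Yj p V c j x)⁻¹ * s j x ^ 2 * ee p V x)
        + 4 / 5 * c j * (s j x * v j x * ee p V x)) := j2.add q4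
      have j4 : Integrable (fun x => g2 p (t j x) * s j x ^ 2 * ee p V x
        - 6 / 5 * c j * (s j x ^ 2 * ee p V x)
        + 9 / 25 * c j * ((Yj p V c j x)⁻¹ * s j x ^ 2 * ee p V x)
        + 4 / 5 * c j * (s j x * v j x * ee p V x)
        + 3 / 10 * c j * ((Yj p V c j x + (Yj p V c j x)⁻¹ - 2) * s j x ^ 2 * ee p V x)) :=
        j3.add q5
      have j5 : Integrable (fun x => g2 p (t j x) * s j x ^ 2 * ee p V x
        - 6 / 5 * c j * (s j x ^ 2 * ee p V x)
        + 9 / 25 * c j * ((Yj p V c j x)⁻¹ * s j x ^ 2 * ee p V x)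
        + 4 / 5 * c j * (s j x * v j x * ee p V x)
        + 3 / 10 * c j * ((Yj p V c j x + (Yj p V c j x)⁻¹ - 2) * s j x ^ 2 * ee p V x)
        + 11 / 5 * c j * ((Yj p V c j x)⁻¹ * v j x ^ 2 * ee p V x)) := j4.add q6
      have hint : Integrable (fun x => w j x ^ 2 / g2 p (t j x) * ee p V x) := by
        refine j5.mono' ?_ ?_
        · have m1 : Measurable (w j) := (pw j).1.measurable
          have m2 : Measurable (fun x => g2 p (t j x)) := (pg2 j).1.measurable
          have m3 : Continuous (ee p V) := (h0 n m p V (by linarith) hV).2.1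
          exact (((m1.pow_const 2).div m2).mul m3.measurable).aestronglyMeasurable
        · filter_upwards [b1] with x hx
          have b7 : 0 ≤ w j x ^ 2 / g2 p (t j x) * ee p V x :=
            mul_nonneg (div_nonneg (sq_nonneg _) (hg2n _)) (hee x)
          rw [Real.norm_eq_abs, abs_of_nonneg b7]
          exact hx
      refine ⟨hint, ?_⟩
      refine (integral_mono_ae hint j5 b1).trans ?_
      have k1 : ∫ x, (g2 p (t j x) * s j x ^ 2 * ee p V x - 6 / 5 * c j * (s j x ^ 2 * ee p V x)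
            + 9 / 25 * c j * ((Yj p V c j x)⁻¹ * s j x ^ 2 * ee p V x)
            + 4 / 5 * c j * (s j x * v j x * ee p V x)
            + 3 / 10 * c j * ((Yj p V c j x + (Yj p V c j x)⁻¹ - 2) * s j x ^ 2 * ee p V x)
            + 11 / 5 * c j * ((Yj p V c j x)⁻¹ * v j x ^ 2 * ee p V x))
          = IE p V (fun x => g2 p (t j x) * s j x ^ 2)
            - 6 / 5 * c j * IE p V (fun x => s j x ^ 2)
            + 9 / 25 * c j * IE p V (fun x => (Yj p V c j x)⁻¹ * s j x ^ 2)
            + 4 / 5 * c j * IE p V (fun x => s j x * v j x)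
            + 3 / 10 * c j * IE p V (fun x => (Yj p V c j x + (Yj p V c j x)⁻¹ - 2) * s j x ^ 2)
            + 11 / 5 * c j * IE p V (fun x => (Yj p V c j x)⁻¹ * v j x ^ 2) := by
        unfold IE
        rw [integral_add j4 q6, integral_add j3 q5, integral_add j2 q4, integral_add j1 q3,
          integral_sub (i1 j) q2]
        simp only [integral_const_mul]
      have k2 := (hS1 n m p V c hp1 hp2 hV hR hT (Z j)).2
      have k3 := hS2 n m p V c hp1 hp2 hV hR hT j hj (Z j)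
      have k4 := hS4 n m p V c hp1 hp2 hV hR hT j hj (Z j)
      have k5 := hG2 n m p V Z c hp1 hp2 hV hR hT hTZ hVZ j hj (V j)
      have l2 : Z j ⬝ᵥ Z j * Mp p V ≤ 26 / 25 * IE p V (fun x => s j x ^ 2) := k2
      have l3 : IE p V (fun x => (Yj p V c j x)⁻¹ * s j x ^ 2) ≤ 6 / 5 * (Z j ⬝ᵥ Z j) * Mp p V := k3
      have l4 : IE p V (fun x => (Yj p V c j x + (Yj p V c j x)⁻¹ - 2) * s j x ^ 2)
        ≤ 543 / 1000 * (Z j ⬝ᵥ Z j) * Mp p V := k4
      have l5 : IE p V (fun x => (Yj p V c j x)⁻¹ * v j x ^ 2)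
        ≤ 161 / 1000 * (∑ i, c i * (Z i ⬝ᵥ V j) ^ 2) * Mp p V := k5
      have m2 := mul_le_mul_of_nonneg_left l2 hcj.le
      have m3 := mul_le_mul_of_nonneg_left l3 hcj.le
      have m4 := mul_le_mul_of_nonneg_left l4 hcj.le
      have m5 := mul_le_mul_of_nonneg_left l5 hcj.le
      refine (le_of_eq k1).trans ?_
      rw [hK1]
      linarith
  -- the sum
  have hsum : IE p V (fun x => ∑ i, w i x ^ 2 / g2 p (V.mulVec x i))
      = ∑ j, ∫ x, w j x ^ 2 / g2 p (t j x) * ee p V x := by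
    unfold IE
    rw [← integral_finsetSum _ fun j _ => (hone j).1]
    refine integral_congr_ae (Filter.Eventually.of_forall fun x => ?_)
    show (∑ i, w i x ^ 2 / g2 p (t i x)) * ee p V x = _
    rw [sum_mul]
  have hsum2 : IE p V (fun x => ∑ i, g2 p (V.mulVec x i) * (Z.mulVec x i) ^ 2)
      = ∑ j, IE p V (fun x => g2 p (t j x) * s j x ^ 2) := by
    unfold IE
    rw [← integral_finsetSum _ fun j _ => i1 j]
    refine integral_congr_ae (Filter.Eventually.of_forall fun x => ?_)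
    show (∑ i, g2 p (t i x) * s i x ^ 2) * ee p V x = _
    rw [sum_mul]
  have hsum3 : ∑ j, c j * IE p V (fun x => s j x * v j x) = 0 := by
    have a1 : ∑ j, c j * IE p V (fun x => s j x * v j x)
        = ∫ x, ∑ j, c j * (s j x * v j x * ee p V x) := by
      rw [integral_finsetSum _ fun j _ => (i4 j).const_mul _]
      refine sum_congr rfl fun j _ => ?_
      rw [integral_const_mul]
      rfl
    rw [a1]
    have a2 : ∀ x, ∑ j, c j * (s j x * v j x * ee p V x) = 0 := by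
      intro x
      have a3 := tt_dot V Z c (gz p V Z x) x
      rw [hTZ, Matrix.zero_mulVec, dotProduct_zero] at a3
      have a4 : ∑ j, c j * (s j x * v j x * ee p V x)
          = (∑ j, c j * (V.mulVec (gz p V Z x) j * Z.mulVec x j)) * ee p V x := by
        rw [sum_mul]
        refine sum_congr rfl fun j _ => ?_
        simp only [hs, hv]
        ring
      rw [a4, a3, zero_mul]
    simp only [a2, integral_zero]
  have hsum4 : ∑ j, c j * ∑ i, c i * (Z i ⬝ᵥ V j) ^ 2 = ∑ i, c i * (Z i ⬝ᵥ Z i) := by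
    have a1 : ∑ j, c j * ∑ i, c i * (Z i ⬝ᵥ V j) ^ 2
        = ∑ i, c i * ∑ j, c j * (V.mulVec (Z i) j * V.mulVec (Z i) j) := by
      simp only [mul_sum]
      rw [sum_comm]
      refine sum_congr rfl fun i _ => sum_congr rfl fun j _ => ?_
      have a2 : Z i ⬝ᵥ V j = V.mulVec (Z i) j := by
        rw [dotProduct_comm]
        rfl
      rw [a2]
      ring
    rw [a1]
    refine sum_congr rfl fun i _ => ?_
    rw [tt_dot, hT, Matrix.one_mulVec]
  have hfin : IE p V (fun x => ∑ i, w i x ^ 2 / g2 p (V.mulVec x i))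
      ≤ IE p V (fun x => ∑ i, g2 p (V.mulVec x i) * (Z.mulVec x i) ^ 2)
        + (∑ i, c i * (Z i ⬝ᵥ Z i)) * Mp p V * K1
        + 11 / 5 * (161 / 1000) * Mp p V * (∑ i, c i * (Z i ⬝ᵥ Z i)) := by
    rw [hsum, hsum2]
    refine (sum_le_sum fun j _ => (hone j).2).trans (le_of_eq ?_)
    rw [sum_add_distrib, sum_add_distrib, sum_add_distrib, ← mul_sum, hsum3, ← mul_sum, hsum4,
      sum_mul, sum_mul]
    ring
  have hfin2 := mul_le_mul_of_nonneg_left hfin hM.le
  have hz2 : 0 ≤ ∑ i, c i * (Z i ⬝ᵥ Z i) := by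
    refine sum_nonneg fun i _ => mul_nonneg (hR.c0 i).le ?_
    exact sum_nonneg fun a _ => mul_self_nonneg _
  set S : ℝ := ∑ i, c i * (Z i ⬝ᵥ Z i) with hS
  have hK : K1 + 11 / 5 * (161 / 1000) ≤ -(2 / 10) := by
    rw [hK1]
    norm_num
  have hSM : 0 ≤ S * Mp p V ^ 2 := mul_nonneg hz2 (sq_nonneg _)
  have hlast := mul_le_mul_of_nonneg_left hK hSM
  have hexp : Mp p V * (IE p V (fun x => ∑ i, g2 p (V.mulVec x i) * (Z.mulVec x i) ^ 2)
        + S * Mp p V * K1 + 11 / 5 * (161 / 1000) * Mp p V * S)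
      = Mp p V * IE p V (fun x => ∑ i, g2 p (V.mulVec x i) * (Z.mulVec x i) ^ 2)
        + S * Mp p V ^ 2 * (K1 + 11 / 5 * (161 / 1000)) := by ring
  rw [hexp] at hfin2
  have hgoal : -(2 / 10) * S * Mp p V ^ 2 = S * Mp p V ^ 2 * -(2 / 10) := by ring
  rw [hgoal]
  linarith

end Pool.Agent.Helper44.GJ
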